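import Pool.Agent.PSS.StmtsS5

/-!
Squad PSS, row KLN: the number of the classes, from the local conditions.
-/

set_option autoImplicit false

open scoped BigOperators TensorProduct

noncomputable section

namespace Pool.Agent.PSS.S5.H83

open Pool.Agent.PFC (tw IsTv Cnr Cz PIn Ctf Lcq PmzStmt PS bi)

/-- KLN. -/
theorem kln (lcp : LcpStmt) (pmz : PmzStmt) (kal : Pool.Agent.PFD.KalStmt) : KlnStmt := by
  intro ℓ _ F V E A _ _ _ _ _ _ _ _ _ φ α W hc hL hq
  have : Fintype E := Fintype.ofFinite E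
  have h1 := lcp ℓ F V E A φ α (fun Q => ¬ Q ≤ W) hc.pg hL hq
  have h2 : PIn F φ W α := ⟨h1.fin, h1.frm, h1.loc, h1.ps, h1.top, h1.lcq, h1.uni⟩
  obtain ⟨A', _, _, α', h3, -, h4⟩ := pmz F V E A ℓ φ W α hc h2
  rw [← h4]
  exact kal F V E A' ℓ φ W α' hc h3

end Pool.Agent.PSS.S5.H83
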