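import Pool.Agent.PSS.StmtsS5
import Pool.Agent.Helper33_PFC.NDM

/-!
Squad PSS, rows LCP and KLN: the input of part (0) from the class of local algebras.
-/

set_option autoImplicit false

open scoped BigOperators TensorProduct

noncomputable section

namespace Pool.Agent.PSS.S5.H83

open Pool.Agent.PFC (tw IsTv Cnr Cz PIn Ctf Lcq PmzStmt PS bi cj BK Fx Tpv Frm)
open Pool.Agent.PFD.D2b (FrR)

/-- a finite abelian group of order a power of the characteristic has nonzero fixed vectors -/
theorem fixvec (ℓ : ℕ) [hl : Fact ℓ.Prime] {F V M : Type} [Field F] [CharP F ℓ] [CommGroup V]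
    [Fintype V] [AddCommGroup M] [Module F M] (hV : IsPGroup ℓ V) (ρ : V →* (M →ₗ[F] M))
    (I : Submodule F M) (hI : ∀ v, ∀ m ∈ I, ρ v m ∈ I) {m : M} (hm : m ∈ I) (hm0 : m ≠ 0) :
    ∃ m' ∈ I, m' ≠ 0 ∧ ∀ v, ρ v m' = m' := by
  classical
  have hnt : Nontrivial M := ⟨⟨m, 0, hm0⟩⟩
  have hch : CharP (Module.End F M) ℓ :=
    charP_of_injective_algebraMap (algebraMap F (Module.End F M)).injective ℓ
  have key : ∀ s : Finset V, ∃ m' ∈ I, m' ≠ 0 ∧ ∀ v ∈ s, ρ v m' = m' := by
    intro s
    induction s using Finset.induction_on with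
    | empty => exact ⟨m, hm, hm0, fun v hv => absurd hv (Finset.notMem_empty v)⟩
    | insert a s _ ih =>
      obtain ⟨m', h1, h2, h3⟩ := ih
      obtain ⟨D, hD⟩ : ∃ D : Module.End F M, D = ρ a - 1 := ⟨_, rfl⟩
      have hnil : ∃ k, (D ^ k) m' = 0 := by
        obtain ⟨n, hn⟩ := hV a
        refine ⟨ℓ ^ n, ?_⟩
        have h4 : D ^ ℓ ^ n = 0 := by
          rw [hD, sub_pow_char_pow_of_commute _ _ (Commute.one_right (ρ a)), one_pow]
          have h5 : (ρ a) ^ ℓ ^ n = (1 : Module.End F M) := by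
            have h6 : ρ (a ^ ℓ ^ n) = (ρ a) ^ ℓ ^ n := map_pow ρ a _
            rw [← h6, hn, map_one]
          rw [h5, sub_self]
        rw [h4, LinearMap.zero_apply]
      have hDI : ∀ x ∈ I, D x ∈ I := by
        intro x hx
        rw [hD, LinearMap.sub_apply]
        exact I.sub_mem (hI a x hx) hx
      have hDk : ∀ k, (D ^ k) m' ∈ I := by
        intro k
        induction k with
        | zero =>
          rw [pow_zero]
          exact h1
        | succ k ih =>
          rw [pow_succ']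
          exact hDI _ ih
      have hcm : ∀ v ∈ s, ∀ k, ρ v ((D ^ k) m') = (D ^ k) m' := by
        intro v hv k
        have h7 : Commute (ρ v : Module.End F M) (D ^ k) := by
          apply Commute.pow_right
          rw [hD]
          apply Commute.sub_right _ (Commute.one_right _)
          show ρ v * ρ a = ρ a * ρ v
          rw [← map_mul, ← map_mul, mul_comm]
        have h8 : ρ v ((D ^ k) m') = (D ^ k) (ρ v m') := LinearMap.congr_fun h7.eq m'
        rw [h8, h3 v hv]
      obtain ⟨k, hk⟩ : ∃ k, k = Nat.find hnil := ⟨_, rfl⟩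
      have hk1 : (D ^ k) m' = 0 := by
        rw [hk]
        exact Nat.find_spec hnil
      have hk0 : k ≠ 0 := by
        intro h0
        rw [h0, pow_zero] at hk1
        exact h2 hk1
      obtain ⟨j, rfl⟩ : ∃ j, k = j + 1 := ⟨k - 1, by omega⟩
      refine ⟨(D ^ j) m', hDk j, ?_, ?_⟩
      · exact Nat.find_min hnil (by omega)
      · intro v hv
        rcases Finset.mem_insert.1 hv with h9 | h9
        · subst h9
          rw [pow_succ'] at hk1
          have h10 : D ((D ^ j) m') = 0 := hk1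
          rw [hD, LinearMap.sub_apply, sub_eq_zero] at h10
          rw [hD]
          exact h10
        · exact hcm v h9 j
  obtain ⟨m', h1, h2, h3⟩ := key Finset.univ
  exact ⟨m', h1, h2, fun v => h3 v (Finset.mem_univ v)⟩

section

variable {F V A : Type} [Field F] [CommGroup V] [Ring A] [Algebra F A] (α : V →* A)

theorem cj_apply' (v : V) (a : A) : cj F α v a = α v * (a * α v⁻¹) := rfl

/-- a symmetric form vanishes on the Brauer kernel -/
theorem lam_BK (ℓ : ℕ) [Fact ℓ.Prime] [CharP F ℓ] [Fintype V] (hV : IsPGroup ℓ V)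
    {lam : A →ₗ[F] F} (hl : ∀ a b, lam (a * b) = lam (b * a)) {a : A}
    (ha : a ∈ BK (cj F α) ⊤) : lam a = 0 := by
  unfold BK at ha
  induction ha using Submodule.span_induction with
  | mem n hn =>
    obtain ⟨P', S, m, hlt, hS, -, rfl⟩ := hn
    rw [map_sum]
    have h1 : ∀ x ∈ S, lam (cj F α x m) = lam m := by
      intro x _
      rw [cj_apply', hl, mul_assoc, ← map_mul, inv_mul_cancel, map_one, mul_one]
    rw [Finset.sum_congr rfl h1, Finset.sum_const, nsmul_eq_mul,
      Pool.Agent.PFC.H33.card_tv_zero ℓ (hV.to_subgroup ⊤) hlt hS, zero_mul]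
  | zero => exact map_zero _
  | add a b _ _ ha hb => rw [map_add, ha, hb, add_zero]
  | smul r a _ ha => rw [map_smul, ha, smul_zero]

/-- the Brauer kernel is stable under the elements of `V` -/
theorem BK_mul (v : V) {a : A} (ha : a ∈ BK (cj F α) ⊤) : α v * a ∈ BK (cj F α) ⊤ := by
  unfold BK at ha ⊢
  induction ha using Submodule.span_induction with
  | mem n hn =>
    obtain ⟨P', S, m, hlt, hS, hm, rfl⟩ := hn
    have hc : ∀ x : V, α v * cj F α x m = cj F α x (α v * m) := by
      intro x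
      rw [cj_apply', cj_apply', ← mul_assoc, ← map_mul, mul_comm v x, map_mul]
      simp only [mul_assoc]
    refine Submodule.subset_span ⟨P', S, α v * m, hlt, hS, ?_, ?_⟩
    · intro h hh
      rw [← hc, hm h hh]
    · rw [Finset.mul_sum]
      exact Finset.sum_congr rfl fun x _ => hc x
  | zero =>
    rw [mul_zero]
    exact Submodule.zero_mem _
  | add a b _ _ ha hb =>
    rw [mul_add]
    exact Submodule.add_mem _ ha hb
  | smul r a _ ha =>
    rw [mul_smul_comm]
    exact Submodule.smul_mem _ r ha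

/-- the elements of `V` are free modulo the Brauer kernel -/
theorem free_BK (ℓ : ℕ) [Fact ℓ.Prime] [CharP F ℓ] [Fintype V] (hV : IsPGroup ℓ V)
    {lam : A →ₗ[F] F} (hl : ∀ a b, lam (a * b) = lam (b * a)) (hnz : lam (∑ v, α v) ≠ 0)
    (c : V → F) (hc : ∑ u, c u • α u ∈ BK (cj F α) ⊤) : c = 0 := by
  by_contra hne
  let L : (V → F) →ₗ[F] A := Fintype.linearCombination F (fun u => α u)
  have hL : ∀ c : V → F, L c = ∑ u, c u • α u := fun c => Fintype.linearCombination_apply F _ c
  let ρ : V →* ((V → F) →ₗ[F] (V → F)) :=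
    { toFun := fun v => LinearMap.funLeft F F (fun u => v⁻¹ * u)
      map_one' := by
        apply LinearMap.ext
        intro c
        funext u
        show c (1⁻¹ * u) = c u
        rw [inv_one, one_mul]
      map_mul' := by
        intro v w
        apply LinearMap.ext
        intro c
        funext u
        show c ((v * w)⁻¹ * u) = c (w⁻¹ * (v⁻¹ * u))
        rw [mul_inv_rev, mul_assoc] }
  have hρ : ∀ (v : V) (c : V → F) (u : V), ρ v c u = c (v⁻¹ * u) := fun _ _ _ => rfl
  have hLρ : ∀ (v : V) (c : V → F), L (ρ v c) = α v * L c := by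
    intro v c
    rw [hL, hL, Finset.mul_sum]
    refine Fintype.sum_equiv (Equiv.mulLeft v⁻¹) _ _ fun u => ?_
    rw [Equiv.coe_mulLeft, hρ, mul_smul_comm, ← map_mul, mul_inv_cancel_left]
  obtain ⟨c', h1, h2, h3⟩ := fixvec ℓ hV ρ ((BK (cj F α) ⊤).comap L) (by
    intro v m hm
    rw [Submodule.mem_comap] at hm ⊢
    rw [hLρ]
    exact BK_mul α v hm) (m := c) (by
      rw [Submodule.mem_comap, hL]
      exact hc) hne
  rw [Submodule.mem_comap, hL] at h1
  have h4 : ∀ u, c' u = c' 1 := by
    intro u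
    have h5 := congrFun (h3 u) u
    rw [hρ, inv_mul_cancel] at h5
    exact h5.symm
  have h6 := lam_BK α ℓ hV hl h1
  have h7 : ∑ u, c' u • α u = c' 1 • ∑ u, α u := by
    rw [Finset.smul_sum]
    exact Finset.sum_congr rfl fun u _ => by rw [h4 u]
  rw [h7, map_smul, smul_eq_mul] at h6
  rcases mul_eq_zero.1 h6 with h8 | h8
  · apply h2
    funext u
    rw [h4 u, h8]
    rfl
  · exact hnz h8

end

/-- LCP. -/
theorem lcp : LcpStmt := by
  intro ℓ _ F V E A _ _ _ _ _ _ _ φ α NN hV hL hq
  obtain ⟨lam, K, _, x, y, hrf, hnz⟩ := hL.frm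
  refine ⟨hL.fin, ⟨lam, hrf.sym, ?_, hnz⟩, hL.loc, ?_, ⟨hL.spn, ?_⟩, hq, hL.uni⟩
  · intro a ha
    rw [← hrf.e2 a]
    refine Finset.sum_eq_zero fun k _ => Finset.sum_eq_zero fun v _ => ?_
    rw [ha, zero_smul]
  · obtain ⟨Ω, h1, h2, b, c, h3, h4⟩ := hL.per
    exact ⟨Ω, h1, h2, b, c, h3, h4⟩
  · intro c hc
    exact free_BK α ℓ hV hrf.sym hnz c hc

end Pool.Agent.PSS.S5.H83
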