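import Pool.Agent.PSS.StmtsS2

/-!
Squad PSS, row HEW: the function adapted to a subgroup.
-/

set_option autoImplicit false

open scoped BigOperators

namespace Pool.Agent.PSS.S2.H83

theorem hew (tor : TorStmt) : HewStmt := by
  intro R V E A Ω _ _ _ _ _ _ _ φ α b c W B _ χ hfr hW hχ hχ0
  obtain ⟨H, hH⟩ := tor (Subgroup.prod W (⊤ : Subgroup V)) Ω B (fun _ g => -χ g.1.2)
    (fun _ _ => rfl)
    (fun _ g g' => by
      show -χ (g.1.2 * g'.1.2) = -χ g.1.2 + -χ g'.1.2
      rw [hχ]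
      abel)
    (fun ω g hg => by
      obtain ⟨e, S, hS⟩ := hfr.st ω
      have h1 : g.1 ∈ MulAction.stabilizer (V × V) ω := hg
      rw [hS] at h1
      obtain ⟨s, hs, h2⟩ := h1
      have h3 : φ e s ∈ W := by
        have h4 : g.1.1 ∈ W := (Subgroup.mem_prod.1 g.2).1
        have h5 : g.1.1 = φ e s := by rw [← h2]; rfl
        rw [← h5]
        exact h4
      have h6 : s ∈ W := by
        have h7 := hW e⁻¹ _ h3
        have h8 : φ e⁻¹ (φ e s) = s := by
          rw [map_inv]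
          exact MulAut.inv_apply_self V (φ e) s
        rwa [h8] at h7
      have h9 : g.1.2 = s := by rw [← h2]; rfl
      show -χ g.1.2 = 0
      rw [h9, hχ0 s h6, neg_zero])
  refine ⟨H, fun w hw v ω => ?_⟩
  have h1 := hH ⟨(w, v), Subgroup.mem_prod.2 ⟨hw, Subgroup.mem_top v⟩⟩ ω
  rw [sub_eq_add_neg]
  exact h1

end Pool.Agent.PSS.S2.H83
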