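import Pool.Agent.PSS.StmtsS2

/-!
Squad PSS, row RAD: a central element in the radical of the form is nilpotent.
-/

set_option autoImplicit false

open scoped BigOperators

namespace Pool.Agent.PSS.S2.H83

theorem rad (nda : NdaStmt) (ndb : NdbStmt) (fit : FitStmt) : RadStmt := by
  intro ℓ _ F V E A K Ω _ _ _ _ _ _ _ _ _ _ _ φ α lam x y b c d hV hrf hfr hd hlam he
  rcases fit F A d with h | ⟨s, hs, h1, h2⟩
  · exact h
  · exfalso
    have hsc : ∀ a', s * a' = a' * s := by
      intro a'
      clear h1 h2
      induction hs using Algebra.adjoin_induction with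
      | mem z hz =>
        rw [Set.mem_singleton_iff] at hz
        rw [hz]
        exact hd a'
      | algebraMap r => exact Algebra.commutes r a'
      | add z w _ _ hz hw => rw [add_mul, mul_add, hz, hw]
      | mul z w _ _ hz hw => rw [mul_assoc, hw, ← mul_assoc, hz, mul_assoc]
    have hec : ∀ a', d * s * a' = a' * (d * s) := by
      intro a'
      rw [mul_assoc, hsc, ← mul_assoc, hd, mul_assoc]
    have hCV : CV α (d * s) := fun v => (hec (α v)).symm
    have h3 := nda F V E A K Ω φ α lam x y b c (d * s) hrf hfr hCV (by
      intro d' hd'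
      have hCV' : CV α (s * d') := by
        intro v
        rw [← mul_assoc, ← hsc, mul_assoc, hd' v, mul_assoc]
      have h4 := hlam (s * d') hCV'
      have e1 : sg α * (d * s) * d' = sg α * (s * d') * d := by
        rw [mul_assoc (sg α), mul_assoc d s d', hd (s * d'), ← mul_assoc]
      rw [e1]
      exact h4)
    exact h2 (he _ hec h1 (ndb ℓ F V A α (d * s) hV hCV h1 h3))

end Pool.Agent.PSS.S2.H83
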